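import Pool.Agent.H74.PP.Targets

/-!
# Different terms with the same dilation (module QZ)
-/

set_option autoImplicit false

open Complex MeasureTheory Set Filter Topology
open scoped NNReal ContDiff

namespace Pool.Agent.H67.PP

open Pool.Agent.H23.GLH (PrimChar)
open Pool.Agent.H28.MZ (co)
open Pool.Agent.H74.PP

/-- the weight function `ξ k(ξ)²` is Lipschitz -/
theorem exists_lip : ∃ C : ℝ≥0, LipschitzWith C fun ξ : ℝ => ξ * kk ξ ^ 2 := by
  have hs : ContDiff ℝ 1 fun ξ : ℝ => ξ * kk ξ ^ 2 := by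
    unfold kk
    apply contDiff_id.mul
    apply ContDiff.pow
    apply ContDiff.mul
    · exact Real.smoothTransition.contDiff.comp (by fun_prop)
    · exact Real.smoothTransition.contDiff.comp (by fun_prop)
  apply hs.lipschitzWith_of_hasCompactSupport _ (by simp)
  apply HasCompactSupport.intro (K := Icc (1 / 4 : ℝ) 1) isCompact_Icc
  intro x hx
  have : kk x = 0 := by
    unfold kk
    rw [mem_Icc, not_and_or, not_le, not_le] at hx
    rcases hx with h | h
    · rw [Real.smoothTransition.zero_of_nonpos (by linarith), zero_mul]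
    · rw [Real.smoothTransition.zero_of_nonpos (x := 4 - 4 * x) (by linarith), mul_zero]
  rw [this]
  ring

theorem abel {a : ℕ → ℂ} {G : ℕ → ℝ} {C D : ℝ} (hD : 0 ≤ D)
    (hS : ∀ N, ‖∑ i ∈ Finset.range (N + 1), a i‖ ≤ C)
    (hG : ∀ i, |G (i + 1) - G i| ≤ D * (Real.log (i + 1 : ℕ) - Real.log i)) (hG0 : G 0 = 0)
    (N : ℕ) : ‖∑ i ∈ Finset.range (N + 1), (G i : ℂ) * a i‖ ≤ 2 * (C * D * Real.log N) := by
  have hC : 0 ≤ C := (norm_nonneg _).trans (hS 0)
  have hmono : ∀ i : ℕ, 0 ≤ Real.log (i + 1 : ℕ) - Real.log i := by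
    intro i
    rcases Nat.eq_zero_or_pos i with h | h
    · subst h
      simp
    · have : Real.log i ≤ Real.log (i + 1 : ℕ) := by
        apply Real.log_le_log (by exact_mod_cast h)
        push_cast
        linarith
      linarith
  have hsum : ∀ M : ℕ, ∑ i ∈ Finset.range M, |G (i + 1) - G i| ≤ D * Real.log M := by
    intro M
    have h1 : ∑ i ∈ Finset.range M, (Real.log (i + 1 : ℕ) - Real.log i) = Real.log M := by
      rw [Finset.sum_range_sub (fun i : ℕ => Real.log i)]
      simp
    rw [← h1, Finset.mul_sum]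
    exact Finset.sum_le_sum fun i _ => hG i
  have hGN : |G N| ≤ D * Real.log N := by
    have h2 : G N = ∑ i ∈ Finset.range N, (G (i + 1) - G i) := by
      rw [Finset.sum_range_sub, hG0, sub_zero]
    rw [h2]
    exact (Finset.abs_sum_le_sum_abs _ _).trans (hsum N)
  have hparts := Finset.sum_range_by_parts (fun i => (G i : ℂ)) a (N + 1)
  simp only [smul_eq_mul, Nat.add_sub_cancel] at hparts
  rw [hparts]
  refine (norm_sub_le _ _).trans ?_
  have e1 : ‖(G N : ℂ) * ∑ i ∈ Finset.range (N + 1), a i‖ ≤ C * D * Real.log N := by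
    rw [norm_mul, Complex.norm_real, Real.norm_eq_abs]
    calc |G N| * ‖∑ i ∈ Finset.range (N + 1), a i‖ ≤ (D * Real.log N) * C :=
          mul_le_mul hGN (hS N) (norm_nonneg _) ((abs_nonneg _).trans hGN)
      _ = C * D * Real.log N := by ring
  have e2 : ‖∑ i ∈ Finset.range N, ((G (i + 1) : ℂ) - G i) * ∑ i ∈ Finset.range (i + 1), a i‖
      ≤ C * D * Real.log N := by
    refine (norm_sum_le _ _).trans ?_
    calc ∑ i ∈ Finset.range N, ‖((G (i + 1) : ℂ) - G i) * ∑ i ∈ Finset.range (i + 1), a i‖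
        ≤ ∑ i ∈ Finset.range N, |G (i + 1) - G i| * C := by
          apply Finset.sum_le_sum
          intro i _
          rw [norm_mul, ← Complex.ofReal_sub, Complex.norm_real, Real.norm_eq_abs]
          exact mul_le_mul_of_nonneg_left (hS i) (abs_nonneg _)
      _ = (∑ i ∈ Finset.range N, |G (i + 1) - G i|) * C := by rw [Finset.sum_mul]
      _ ≤ (D * Real.log N) * C := mul_le_mul_of_nonneg_right (hsum N) hC
      _ = C * D * Real.log N := by ring
  linarith

theorem qz (hOB : T_OB) : T_QZ := by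
  intro π π' u ε hne hε
  obtain ⟨C, hC⟩ := hOB π π' u hne
  obtain ⟨L, hL⟩ := exists_lip
  have hC0 : 0 ≤ C := (norm_nonneg _).trans (hC 0)
  refine ⟨max 1 (2 * (C * L) / ε), fun l hl => ?_⟩
  have hl1 : 1 ≤ l := (le_max_left _ _).trans hl
  have hl2 : 2 * (C * L) / ε ≤ l := (le_max_right _ _).trans hl
  have hl0 : 0 < l := by linarith
  set N := ⌊Real.exp l⌋₊ with hN
  set a : ℕ → ℂ := fun m => if m.Prime then
    ((Real.log m / m : ℝ) : ℂ) * (co π m * (starRingEnd ℂ) (co π' m)) * (m : ℂ) ^ (-(u * I))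
    else 0 with ha
  set G : ℕ → ℝ := fun m => Real.log m * kk (Real.log m / l) ^ 2 with hG
  have hrange : ∀ (M : ℕ) (f : ℕ → ℂ), (∀ m, ¬ m.Prime → f m = 0) →
      ∑ p ∈ (Finset.Icc 1 M).filter Nat.Prime, f p = ∑ i ∈ Finset.range (M + 1), f i := by
    intro M f hf
    have h1 : (Finset.Icc 1 M).filter Nat.Prime = (Finset.range (M + 1)).filter Nat.Prime := by
      ext p
      simp only [Finset.mem_filter, Finset.mem_Icc, Finset.mem_range]
      constructor
      · rintro ⟨⟨-, h⟩, hp⟩
        exact ⟨by omega, hp⟩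
      · rintro ⟨h, hp⟩
        exact ⟨⟨hp.one_lt.le, by omega⟩, hp⟩
    rw [h1, Finset.sum_filter]
    apply Finset.sum_congr rfl
    intro i _
    split_ifs with h
    · rfl
    · exact (hf i h).symm
  have hS : ∀ M, ‖∑ i ∈ Finset.range (M + 1), a i‖ ≤ C := by
    intro M
    rw [← hrange M a (fun m hm => by simp [ha, hm])]
    refine le_trans (le_of_eq ?_) (hC M)
    congr 1
    apply Finset.sum_congr rfl
    intro p hp
    rw [Finset.mem_filter] at hp
    simp [ha, hp.2]
  have hGl : ∀ m : ℕ, G m = l * ((Real.log m / l) * kk (Real.log m / l) ^ 2) := by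
    intro m
    simp only [hG]
    field_simp
  have hGd : ∀ i, |G (i + 1) - G i| ≤ L * (Real.log (i + 1 : ℕ) - Real.log i) := by
    intro i
    have h0 : 0 ≤ Real.log (i + 1 : ℕ) - Real.log i := by
      rcases Nat.eq_zero_or_pos i with h | h
      · subst h
        simp
      · have : Real.log i ≤ Real.log (i + 1 : ℕ) := by
          apply Real.log_le_log (by exact_mod_cast h)
          push_cast
          linarith
        linarith
    have h1 := hL.dist_le_mul (Real.log (i + 1 : ℕ) / l) (Real.log i / l)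
    rw [Real.dist_eq, Real.dist_eq] at h1
    rw [hGl, hGl, ← mul_sub, abs_mul, abs_of_pos hl0]
    calc l * |Real.log (i + 1 : ℕ) / l * kk (Real.log (i + 1 : ℕ) / l) ^ 2
          - Real.log i / l * kk (Real.log i / l) ^ 2|
        ≤ l * (L * |Real.log (i + 1 : ℕ) / l - Real.log i / l|) :=
          mul_le_mul_of_nonneg_left h1 hl0.le
      _ = L * (Real.log (i + 1 : ℕ) - Real.log i) := by
          rw [← sub_div, abs_div, abs_of_nonneg h0, abs_of_pos hl0]
          field_simp
  have hG0 : G 0 = 0 := by simp [hG]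
  have hab := abel L.2 hS hGd hG0 N
  have hQ : Qr π π' l u = (1 / l ^ 2 : ℝ) * ∑ i ∈ Finset.range (N + 1), (G i : ℂ) * a i := by
    unfold Qr
    congr 1
    rw [← hrange N (fun i => (G i : ℂ) * a i) (fun m hm => by simp [ha, hm])]
    apply Finset.sum_congr rfl
    intro p hp
    rw [Finset.mem_filter] at hp
    simp only [ha, hp.2, if_true, hG]
    push_cast
    ring
  have hlogN : Real.log N ≤ l := by
    rcases Nat.eq_zero_or_pos N with h | h
    · rw [h]
      simpa using hl0.le
    · rw [Real.log_le_iff_le_exp (by exact_mod_cast h)]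
      exact Nat.floor_le (Real.exp_pos l).le
  rw [hQ, norm_mul, Complex.norm_real, Real.norm_eq_abs, abs_of_pos (by positivity)]
  calc 1 / l ^ 2 * ‖∑ i ∈ Finset.range (N + 1), (G i : ℂ) * a i‖
      ≤ 1 / l ^ 2 * (2 * (C * L * Real.log N)) := mul_le_mul_of_nonneg_left hab (by positivity)
    _ ≤ 1 / l ^ 2 * (2 * (C * L * l)) := by
        apply mul_le_mul_of_nonneg_left _ (by positivity)
        have : 0 ≤ C * L := mul_nonneg hC0 L.2
        nlinarith
    _ = 2 * (C * L) / l := by
        field_simp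
    _ ≤ ε := by
        rw [div_le_iff₀ hl0]
        rw [div_le_iff₀ hε] at hl2
        linarith

end Pool.Agent.H67.PP
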